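import Mathlib

/-!
# Sums of the first rows of Plancherel-random partitions are not log-concave

For every `r ≥ 2` and all sufficiently large `n`, the distribution of `λ_1 + … + λ_r` under the
Plancherel measure on the partitions of `n` is not log-concave.

The reason is at the left end of the distribution. The partitions of `n` with
`λ_1 + … + λ_r = 2r - 1` have at most `2r - 1` cells outside the first column, so their total
Plancherel weight is at most polynomial in `n` (times `1 / n!`), while for the value `2r` all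
two-column shapes contribute, and their weight is exponential in `n` (times `1 / n!`).
-/

open Finset

namespace Pool.Agent.Results.MP_64a7c6_pr.RowSumsNotLogConcave

/-- A standard Young tableau of shape `μ`: a bijective filling of the cells of `μ` by the numbers
`0, 1, …, |μ| - 1` which is increasing along rows and down columns. (A cell is a pair
`(row, column)`.) -/
def IsStandard (μ : YoungDiagram) (T : μ.cells ≃ Fin μ.card) : Prop :=
  (∀ a b : μ.cells, a.1.1 = b.1.1 → a.1.2 < b.1.2 → T a < T b) ∧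
    (∀ a b : μ.cells, a.1.2 = b.1.2 → a.1.1 < b.1.1 → T a < T b)

/-- `f^μ`, the number of standard Young tableaux of shape `μ`. -/
noncomputable def numSYT (μ : YoungDiagram) : ℕ :=
  Nat.card {T : μ.cells ≃ Fin μ.card // IsStandard μ T}

lemma cells_subset (μ : YoungDiagram) : μ.cells ⊆ range μ.card ×ˢ range μ.card := by
  intro c hc
  obtain ⟨i, j⟩ := c
  have hc' : (i, j) ∈ μ := hc
  rw [mem_product, mem_range, mem_range]
  constructor
  · have h1 : i < μ.colLen j := YoungDiagram.mem_iff_lt_colLen.mp hc'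
    have h2 : μ.colLen j ≤ μ.card := by
      rw [YoungDiagram.colLen_eq_card]
      exact card_le_card (filter_subset _ _)
    exact lt_of_lt_of_le h1 h2
  · have h1 : j < μ.rowLen i := YoungDiagram.mem_iff_lt_rowLen.mp hc'
    have h2 : μ.rowLen i ≤ μ.card := by
      rw [YoungDiagram.rowLen_eq_card]
      exact card_le_card (filter_subset _ _)
    exact lt_of_lt_of_le h1 h2

lemma finite_diagrams (n : ℕ) : {μ : YoungDiagram | μ.card = n}.Finite := by
  apply Set.Finite.of_finite_image (f := YoungDiagram.cells)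
  · apply Set.Finite.subset ((range n ×ˢ range n).powerset : Finset _).finite_toSet
    rintro _ ⟨μ, hμ, rfl⟩
    rw [mem_coe, mem_powerset]
    have := cells_subset μ
    rwa [show μ.card = n from hμ] at this
  · intro μ _ ν _ h
    exact YoungDiagram.ext h

/-- The partitions of `n`, as Young diagrams with `n` cells. -/
noncomputable def diagrams (n : ℕ) : Finset YoungDiagram := (finite_diagrams n).toFinset

/-- `λ_1 + … + λ_r`, the number of cells in the first `r` rows. -/
def rowSum (r : ℕ) (μ : YoungDiagram) : ℕ := ∑ i ∈ range r, μ.rowLen i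

/-- The probability `μ_n(λ_1 + … + λ_r = j)` under the Plancherel measure
`μ_n(λ) = (f^λ)² / n!` on the partitions `λ` of `n`. -/
noncomputable def rowSumLaw (n r : ℕ) (j : ℤ) : ℝ :=
  ∑ μ ∈ diagrams n with (rowSum r μ : ℤ) = j, (numSYT μ : ℝ) ^ 2 / (n.factorial : ℝ)

/-- Log-concavity of a distribution on the integers. -/
def LogConcave (p : ℤ → ℝ) : Prop := ∀ j : ℤ, p (j - 1) * p (j + 1) ≤ p j ^ 2

lemma mem_diagrams (n : ℕ) (μ : YoungDiagram) : μ ∈ diagrams n ↔ μ.card = n := by
  unfold diagrams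
  rw [Set.Finite.mem_toFinset]
  rfl

/-! ### Every shape has a standard Young tableau -/

lemma numSYT_pos (μ : YoungDiagram) : 1 ≤ numSYT μ := by
  classical
  let s : Finset (ℕ ×ₗ ℕ) := μ.cells.map toLex.toEmbedding
  have hs : s.card = μ.card := by simp [s, YoungDiagram.card]
  let e : μ.cells ≃ s :=
    { toFun := fun c => ⟨toLex c.1, by simp [s]⟩
      invFun := fun c => ⟨ofLex c.1, by
        obtain ⟨c, hc⟩ := c
        simp only [s, mem_map] at hc
        obtain ⟨a, ha, rfl⟩ := hc
        exact ha⟩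
      left_inv := fun c => rfl
      right_inv := fun c => rfl }
  let T : μ.cells ≃ Fin μ.card := e.trans (s.orderIsoOfFin hs).symm.toEquiv
  have hT : IsStandard μ T := by
    constructor
    · intro a b h1 h2
      show (s.orderIsoOfFin hs).symm (e a) < (s.orderIsoOfFin hs).symm (e b)
      rw [OrderIso.lt_iff_lt]
      show toLex a.1 < toLex b.1
      rw [Prod.Lex.toLex_lt_toLex]
      exact Or.inr ⟨h1, h2⟩
    · intro a b h1 h2
      show (s.orderIsoOfFin hs).symm (e a) < (s.orderIsoOfFin hs).symm (e b)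
      rw [OrderIso.lt_iff_lt]
      show toLex a.1 < toLex b.1
      rw [Prod.Lex.toLex_lt_toLex]
      exact Or.inl h2
  unfold numSYT
  have : Nonempty {T : μ.cells ≃ Fin μ.card // IsStandard μ T} := ⟨⟨T, hT⟩⟩
  exact Nat.card_pos

/-! ### Upper bound for the number of tableaux -/

/-- The cells outside the first column. -/
def outer (μ : YoungDiagram) : Finset (ℕ × ℕ) := μ.cells.filter fun c => c.2 ≠ 0

/-- Two standard tableaux which agree outside the first column agree. -/
lemma eq_of_agree (μ : YoungDiagram) (T U : μ.cells ≃ Fin μ.card) (hT : IsStandard μ T)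
    (hU : IsStandard μ U) (h : ∀ c : μ.cells, c.1.2 ≠ 0 → T c = U c) : T = U := by
  -- by strong induction on the row, the cells of the first column agree
  have key : ∀ i : ℕ, ∀ hc : (i, 0) ∈ μ.cells, T ⟨(i, 0), hc⟩ = U ⟨(i, 0), hc⟩ := by
    intro i
    induction i using Nat.strong_induction_on with
    | _ i ih =>
      intro hc
      -- auxiliary: for standard `T`, `U` agreeing at all earlier cells, `T c ≤ U c`
      have aux : ∀ T U : μ.cells ≃ Fin μ.card, IsStandard μ T → IsStandard μ U →
          (∀ c : μ.cells, c.1.2 ≠ 0 → T c = U c) →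
          (∀ m < i, ∀ hc : (m, 0) ∈ μ.cells, T ⟨(m, 0), hc⟩ = U ⟨(m, 0), hc⟩) →
          T ⟨(i, 0), hc⟩ ≤ U ⟨(i, 0), hc⟩ := by
        intro T U hT hU h ih
        -- the cell where `T` takes the value `U (i, 0)`
        obtain ⟨c, hcT⟩ := T.surjective (U ⟨(i, 0), hc⟩)
        by_cases h2 : c.1.2 = 0
        · obtain ⟨⟨m, j⟩, hmem⟩ := c
          simp only at h2
          subst h2
          rcases lt_trichotomy m i with hlt | heq | hgt
          · exfalso
            have h3 := ih m hlt hmem
            rw [h3] at hcT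
            have h4 := U.injective hcT
            have h5 : (m, 0) = (i, 0) := congrArg Subtype.val h4
            have h6 : m = i := congrArg Prod.fst h5
            omega
          · subst heq
            rw [hcT]
          · rw [← hcT]
            exact (hT.2 ⟨(i, 0), hc⟩ ⟨(m, 0), hmem⟩ rfl hgt).le
        · exfalso
          rw [h c h2] at hcT
          have h4 := U.injective hcT
          have h5 : c.1 = (i, 0) := congrArg Subtype.val h4
          exact h2 (by rw [h5])
      apply le_antisymm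
      · exact aux T U hT hU h ih
      · exact aux U T hU hT (fun c hc => (h c hc).symm) (fun m hm hc => (ih m hm hc).symm)
  ext c
  by_cases h2 : c.1.2 = 0
  · obtain ⟨⟨i, j⟩, hmem⟩ := c
    simp only at h2
    subst h2
    rw [key i hmem]
  · rw [h c h2]

lemma numSYT_le (μ : YoungDiagram) : numSYT μ ≤ μ.card ^ (outer μ).card := by
  classical
  unfold numSYT
  have hsub : ∀ c : outer μ, c.1 ∈ μ.cells := fun c => (mem_filter.mp c.2).1
  let f : {T : μ.cells ≃ Fin μ.card // IsStandard μ T} → (outer μ → Fin μ.card) :=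
    fun T c => T.1 ⟨c.1, hsub c⟩
  have hf : Function.Injective f := by
    intro T U hTU
    apply Subtype.ext
    apply eq_of_agree μ T.1 U.1 T.2 U.2
    intro c hc
    exact congrFun hTU ⟨c.1, mem_filter.mpr ⟨c.2, hc⟩⟩
  calc Nat.card {T : μ.cells ≃ Fin μ.card // IsStandard μ T}
      ≤ Nat.card (outer μ → Fin μ.card) := Nat.card_le_card_of_injective f hf
    _ = μ.card ^ (outer μ).card := by
        rw [Nat.card_fun]
        simp

/-! ### Shapes with `λ_1 + … + λ_r = 2r - 1` -/

lemma card_rows_lt (μ : YoungDiagram) (r : ℕ) :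
    (μ.cells.filter fun c => c.1 < r).card = rowSum r μ := by
  unfold rowSum
  induction r with
  | zero => simp
  | succ r ih =>
    rw [sum_range_succ, ← ih, YoungDiagram.rowLen_eq_card, ← card_union_of_disjoint]
    · congr 1
      ext c
      simp only [mem_filter, mem_union, YoungDiagram.row]
      constructor
      · rintro ⟨h1, h2⟩
        rcases Nat.lt_succ_iff_lt_or_eq.mp h2 with h | h
        · exact Or.inl ⟨h1, h⟩
        · exact Or.inr ⟨h1, h⟩
      · rintro (⟨h1, h2⟩ | ⟨h1, h2⟩)
        · exact ⟨h1, by omega⟩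
        · exact ⟨h1, by omega⟩
    · rw [disjoint_left]
      intro c h1 h2
      simp only [mem_filter, YoungDiagram.row] at h1 h2
      omega

lemma rowLen_le_one (μ : YoungDiagram) (r : ℕ) (hr : 1 ≤ r) (h : rowSum r μ ≤ 2 * r - 1)
    (i : ℕ) (hi : r ≤ i + 1) : μ.rowLen i ≤ 1 := by
  by_contra hcon
  push Not at hcon
  have h1 : ∀ k ∈ range r, 2 ≤ μ.rowLen k := by
    intro k hk
    have hk' : k < r := mem_range.mp hk
    have := μ.rowLen_anti k i (by omega)
    omega
  have h2 : r * 2 ≤ rowSum r μ := by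
    unfold rowSum
    calc r * 2 = ∑ _k ∈ range r, 2 := by simp
      _ ≤ _ := sum_le_sum h1
  omega

lemma card_outer_le (μ : YoungDiagram) (r : ℕ) (hr : 1 ≤ r) (h : rowSum r μ ≤ 2 * r - 1) :
    (outer μ).card ≤ 2 * r - 1 := by
  refine le_trans ?_ h
  rw [← card_rows_lt]
  apply card_le_card
  intro c hc
  unfold outer at hc
  rw [mem_filter] at hc ⊢
  refine ⟨hc.1, ?_⟩
  by_contra hcon
  push Not at hcon
  have h1 := rowLen_le_one μ r hr h c.1 (by omega)
  have h2 : c.2 < μ.rowLen c.1 := YoungDiagram.mem_iff_lt_rowLen.mp hc.1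
  omega

/-- The number of partitions of `n` with `λ_1 + … + λ_r = 2r - 1` is at most `(2r)^r`. -/
lemma card_shapes_le (n r : ℕ) (hr : 1 ≤ r) :
    ((diagrams n).filter fun μ => (rowSum r μ : ℤ) = 2 * r - 1).card ≤ (2 * r) ^ r := by
  classical
  let f : YoungDiagram → (Fin r → Fin (2 * r)) := fun μ i =>
    ⟨min (μ.rowLen i) (2 * r - 1), by omega⟩
  have hcard : (univ : Finset (Fin r → Fin (2 * r))).card = (2 * r) ^ r := by simp
  rw [← hcard]
  apply card_le_card_of_injOn f (fun _ _ => mem_coe.mpr (mem_univ _))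
  -- comparison
  have key : ∀ μ ν : YoungDiagram, (∀ i < r, μ.rowLen i = ν.rowLen i) →
      (∀ i, r ≤ i + 1 → μ.rowLen i ≤ 1) → μ.colLen 0 ≤ ν.colLen 0 → μ.cells ⊆ ν.cells := by
    intro μ ν h1 h2 h3 c hc
    obtain ⟨i, j⟩ := c
    have hc1 : j < μ.rowLen i := YoungDiagram.mem_iff_lt_rowLen.mp hc
    have hc2 : (i, j) ∈ ν := by
      by_cases hi : i < r
      · rw [YoungDiagram.mem_iff_lt_rowLen, ← h1 i hi]
        exact hc1
      · have h4 := h2 i (by omega)
        have hj : j = 0 := by omega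
        subst hj
        rw [YoungDiagram.mem_iff_lt_colLen]
        have h5 : i < μ.colLen 0 := YoungDiagram.mem_iff_lt_colLen.mp hc
        omega
    exact hc2
  intro μ hμ ν hν hf
  rw [mem_coe, mem_filter, mem_diagrams] at hμ hν
  have hμs : rowSum r μ ≤ 2 * r - 1 := by have := hμ.2; omega
  have hνs : rowSum r ν ≤ 2 * r - 1 := by have := hν.2; omega
  have hrow : ∀ κ : YoungDiagram, rowSum r κ ≤ 2 * r - 1 → ∀ i < r, κ.rowLen i ≤ 2 * r - 1 := by
    intro κ hκ i hi
    refine le_trans ?_ hκ
    unfold rowSum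
    exact single_le_sum (f := fun i => κ.rowLen i) (fun _ _ => Nat.zero_le _) (mem_range.mpr hi)
  have hrows : ∀ i < r, μ.rowLen i = ν.rowLen i := by
    intro i hi
    have h1 := congrArg Fin.val (congrFun hf ⟨i, hi⟩)
    simp only [f] at h1
    have h2 := hrow μ hμs i hi
    have h3 := hrow ν hνs i hi
    rw [min_eq_left h2, min_eq_left h3] at h1
    exact h1
  have hμ1 := rowLen_le_one μ r hr hμs
  have hν1 := rowLen_le_one ν r hr hνs
  apply YoungDiagram.ext
  rcases le_total (μ.colLen 0) (ν.colLen 0) with h | h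
  · apply eq_of_subset_of_card_le (key μ ν hrows hμ1 h)
    have e1 : μ.cells.card = n := hμ.1
    have e2 : ν.cells.card = n := hν.1
    omega
  · symm
    apply eq_of_subset_of_card_le (key ν μ (fun i hi => (hrows i hi).symm) hν1 h)
    have e1 : μ.cells.card = n := hμ.1
    have e2 : ν.cells.card = n := hν.1
    omega

lemma law_middle_le (n r : ℕ) (hr : 1 ≤ r) :
    rowSumLaw n r (2 * r - 1)
      ≤ ((2 * r : ℝ) ^ r * ((n : ℝ) ^ (2 * r - 1)) ^ 2) / (n.factorial : ℝ) := by
  unfold rowSumLaw
  rcases Nat.eq_zero_or_pos n with hn | hn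
  · subst hn
    -- no partition of `0` has this row sum
    have : ((diagrams 0).filter fun μ => (rowSum r μ : ℤ) = 2 * r - 1) = ∅ := by
      rw [filter_eq_empty_iff]
      intro μ hμ h
      rw [mem_diagrams] at hμ
      have h1 : rowSum r μ ≤ μ.card := by
        rw [← card_rows_lt]
        exact card_le_card (filter_subset _ _)
      omega
    rw [this]
    simp only [sum_empty]
    positivity
  rw [← sum_div]
  apply div_le_div_of_nonneg_right _ (by positivity)
  calc ∑ μ ∈ diagrams n with (rowSum r μ : ℤ) = 2 * r - 1, (numSYT μ : ℝ) ^ 2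
      ≤ ∑ μ ∈ diagrams n with (rowSum r μ : ℤ) = 2 * r - 1, ((n : ℝ) ^ (2 * r - 1)) ^ 2 := by
        apply sum_le_sum
        intro μ hμ
        rw [mem_filter, mem_diagrams] at hμ
        have hs : rowSum r μ ≤ 2 * r - 1 := by have := hμ.2; omega
        have h1 : numSYT μ ≤ n ^ (2 * r - 1) := by
          calc numSYT μ ≤ μ.card ^ (outer μ).card := numSYT_le μ
            _ = n ^ (outer μ).card := by rw [hμ.1]
            _ ≤ n ^ (2 * r - 1) := Nat.pow_le_pow_right hn (card_outer_le μ r hr hs)
        have h2 : (numSYT μ : ℝ) ≤ (n : ℝ) ^ (2 * r - 1) := by exact_mod_cast h1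
        gcongr
    _ = ((diagrams n).filter fun μ => (rowSum r μ : ℤ) = 2 * r - 1).card
          * ((n : ℝ) ^ (2 * r - 1)) ^ 2 := by
        rw [sum_const, nsmul_eq_mul]
    _ ≤ (2 * r : ℝ) ^ r * ((n : ℝ) ^ (2 * r - 1)) ^ 2 := by
        gcongr
        exact_mod_cast card_shapes_le n r hr

/-! ### Two families of shapes -/

lemma rowLen_eq (μ : YoungDiagram) (i k : ℕ) (h : ∀ j, (i, j) ∈ μ ↔ j < k) : μ.rowLen i = k := by
  have h2 : ∀ j, j < μ.rowLen i ↔ j < k := fun j => by
    rw [← YoungDiagram.mem_iff_lt_rowLen]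
    exact h j
  rcases lt_trichotomy (μ.rowLen i) k with hlt | heq | hgt
  · exact absurd ((h2 _).mpr hlt) (lt_irrefl _)
  · exact heq
  · exact absurd ((h2 _).mp hgt) (lt_irrefl _)

/-- The hook with first row of length `a + 1` and first column of length `b + 1`. -/
def hook (a b : ℕ) : YoungDiagram where
  cells := ({0} ×ˢ range (a + 1)) ∪ (range (b + 1) ×ˢ {0})
  isLowerSet := by
    rintro ⟨i, j⟩ ⟨i', j'⟩ ⟨h1, h2⟩ h
    simp only [coe_union, coe_product, coe_singleton, coe_range, Set.mem_union, Set.mem_prod,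
      Set.mem_singleton_iff, Set.mem_Iio] at h ⊢
    simp only at h1 h2
    omega

lemma mem_hook (a b i j : ℕ) : (i, j) ∈ hook a b ↔ (i = 0 ∧ j < a + 1) ∨ (i < b + 1 ∧ j = 0) := by
  rw [← YoungDiagram.mem_cells]
  simp [hook]
  omega

lemma card_hook (a b : ℕ) : (hook a b).card = a + b + 1 := by
  have h : (hook a b).cells = ({0} ×ˢ range (a + 1)) ∪ ((Icc 1 b) ×ˢ {0}) := by
    ext ⟨i, j⟩
    simp only [hook, mem_union, mem_product, mem_singleton, mem_range, mem_Icc]
    omega
  unfold YoungDiagram.card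
  rw [h, card_union_of_disjoint]
  · simp
    omega
  · rw [disjoint_left]
    rintro ⟨i, j⟩ h1 h2
    simp only [mem_product, mem_singleton, mem_range, mem_Icc] at h1 h2
    omega

lemma rowSum_hook (a b r : ℕ) (hr : 1 ≤ r) (hb : r ≤ b + 1) : rowSum r (hook a b) = a + r := by
  have h0 : (hook a b).rowLen 0 = a + 1 := by
    apply rowLen_eq
    intro j
    rw [mem_hook]
    omega
  have h1 : ∀ i, 1 ≤ i → i < r → (hook a b).rowLen i = 1 := by
    intro i hi1 hi2
    apply rowLen_eq
    intro j
    rw [mem_hook]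
    omega
  obtain ⟨s, rfl⟩ : ∃ s, r = s + 1 := ⟨r - 1, by omega⟩
  unfold rowSum
  rw [sum_range_succ', h0]
  have : ∑ k ∈ range s, (hook a b).rowLen (k + 1) = ∑ _k ∈ range s, 1 := by
    apply sum_congr rfl
    intro k hk
    exact h1 (k + 1) (by omega) (by have := mem_range.mp hk; omega)
  rw [this]
  simp
  omega

/-- The shape with two columns, of lengths `a ≥ b`. -/
def twoCol (a b : ℕ) (h : b ≤ a) : YoungDiagram where
  cells := (range a ×ˢ {0}) ∪ (range b ×ˢ {1})
  isLowerSet := by
    rintro ⟨i, j⟩ ⟨i', j'⟩ ⟨h1, h2⟩ h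
    simp only [coe_union, coe_product, coe_singleton, coe_range, Set.mem_union, Set.mem_prod,
      Set.mem_singleton_iff, Set.mem_Iio] at h ⊢
    simp only at h1 h2
    omega

lemma mem_twoCol (a b : ℕ) (h : b ≤ a) (i j : ℕ) :
    (i, j) ∈ twoCol a b h ↔ (i < a ∧ j = 0) ∨ (i < b ∧ j = 1) := by
  rw [← YoungDiagram.mem_cells]
  simp [twoCol]
  omega

lemma card_twoCol (a b : ℕ) (h : b ≤ a) : (twoCol a b h).card = a + b := by
  unfold YoungDiagram.card twoCol
  rw [card_union_of_disjoint]
  · simp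
  · rw [disjoint_left]
    rintro ⟨i, j⟩ h1 h2
    simp only [mem_product, mem_singleton, mem_range] at h1 h2
    omega

lemma rowSum_twoCol (a b r : ℕ) (h : b ≤ a) (hr : r ≤ b) : rowSum r (twoCol a b h) = 2 * r := by
  unfold rowSum
  have : ∑ i ∈ range r, (twoCol a b h).rowLen i = ∑ _i ∈ range r, 2 := by
    apply sum_congr rfl
    intro i hi
    have hi' := mem_range.mp hi
    apply rowLen_eq
    intro j
    rw [mem_twoCol]
    omega
  rw [this]
  simp
  omega

/-- The filling of the two-column shape with column lengths `2p + ρ` and `2p` associated with a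
choice `β` for each of the `p` blocks of `2 × 2` cells. -/
def fill (p : ℕ) (β : ℕ → Bool) (i j : ℕ) : ℕ :=
  if i < 2 * p then 4 * (i / 2) + (if β (i / 2) then 2 * j + i % 2 else 2 * (i % 2) + j)
  else 4 * p + (i - 2 * p)

lemma fill_row (p : ℕ) (β : ℕ → Bool) (i : ℕ) (hi : i < 2 * p) :
    fill p β i 0 < fill p β i 1 := by
  unfold fill
  rw [if_pos hi, if_pos hi]
  cases β (i / 2) <;> simp

lemma fill_lt_block (p : ℕ) (β : ℕ → Bool) (i j : ℕ) (hi : i < 2 * p) (hj : j ≤ 1) :
    4 * (i / 2) ≤ fill p β i j ∧ fill p β i j < 4 * (i / 2) + 4 := by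
  unfold fill
  rw [if_pos hi]
  cases β (i / 2) <;> simp <;> omega

lemma fill_col (p : ℕ) (β : ℕ → Bool) (i i' j : ℕ) (hii : i < i')
    (hj : j = 0 ∨ (j = 1 ∧ i' < 2 * p)) : fill p β i j < fill p β i' j := by
  by_cases hi : i < 2 * p
  · by_cases hi' : i' < 2 * p
    · by_cases hblock : i / 2 = i' / 2
      · unfold fill
        rw [if_pos hi, if_pos hi', hblock]
        cases β (i' / 2) <;> simp <;> omega
      · have h1 := fill_lt_block p β i j hi (by omega)
        have h2 := fill_lt_block p β i' j hi' (by omega)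
        omega
    · have h1 := fill_lt_block p β i j hi (by omega)
      unfold fill at h1 ⊢
      rw [if_pos hi] at h1
      rw [if_pos hi, if_neg hi']
      omega
  · have hi' : ¬ i' < 2 * p := by omega
    unfold fill
    rw [if_neg hi, if_neg hi']
    omega

lemma fill_lt (p ρ : ℕ) (β : ℕ → Bool) (i j : ℕ)
    (h : (i < 2 * p + ρ ∧ j = 0) ∨ (i < 2 * p ∧ j = 1)) : fill p β i j < 2 * p + ρ + 2 * p := by
  by_cases hi : i < 2 * p
  · have h1 := fill_lt_block p β i j hi (by omega)
    omega
  · unfold fill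
    rw [if_neg hi]
    omega

lemma fill_inj (p : ℕ) (β : ℕ → Bool) (i j i' j' : ℕ) (hj : j = 0 ∨ (j = 1 ∧ i < 2 * p))
    (hj' : j' = 0 ∨ (j' = 1 ∧ i' < 2 * p)) (h : fill p β i j = fill p β i' j') :
    i = i' ∧ j = j' := by
  by_cases hi : i < 2 * p
  · have h1 := fill_lt_block p β i j hi (by omega)
    by_cases hi' : i' < 2 * p
    · have h2 := fill_lt_block p β i' j' hi' (by omega)
      have hblock : i / 2 = i' / 2 := by omega
      unfold fill at h
      rw [if_pos hi, if_pos hi', hblock] at h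
      cases hβ : β (i' / 2) <;> simp [hβ] at h <;> omega
    · exfalso
      have h3 : fill p β i' j' = 4 * p + (i' - 2 * p) := by
        unfold fill; rw [if_neg hi']
      omega
  · have hj0 : j = 0 := by omega
    by_cases hi' : i' < 2 * p
    · exfalso
      have h2 := fill_lt_block p β i' j' hi' (by omega)
      have h3 : fill p β i j = 4 * p + (i - 2 * p) := by
        unfold fill; rw [if_neg hi]
      omega
    · have hj0' : j' = 0 := by omega
      have h3 : fill p β i j = 4 * p + (i - 2 * p) := by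
        unfold fill; rw [if_neg hi]
      have h4 : fill p β i' j' = 4 * p + (i' - 2 * p) := by
        unfold fill; rw [if_neg hi']
      omega

/-- The shape used for the lower bound: column lengths `2p + ρ` and `2p`. -/
abbrev shape (p ρ : ℕ) : YoungDiagram := twoCol (2 * p + ρ) (2 * p) (by omega)

lemma two_pow_le_numSYT (p ρ : ℕ) : 2 ^ p ≤ numSYT (shape p ρ) := by
  classical
  have hcard : (shape p ρ).card = 2 * p + ρ + 2 * p := card_twoCol _ _ _
  have hmem : ∀ c : (shape p ρ).cells,
      (c.1.1 < 2 * p + ρ ∧ c.1.2 = 0) ∨ (c.1.1 < 2 * p ∧ c.1.2 = 1) := by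
    intro c
    exact (mem_twoCol _ _ _ c.1.1 c.1.2).mp c.2
  let ext : (Fin p → Bool) → (ℕ → Bool) := fun β k => if h : k < p then β ⟨k, h⟩ else false
  let g : (Fin p → Bool) → (shape p ρ).cells → Fin (shape p ρ).card := fun β c =>
    ⟨fill p (ext β) c.1.1 c.1.2, by rw [hcard]; exact fill_lt p ρ _ _ _ (hmem c)⟩
  have ginj : ∀ β, Function.Injective (g β) := by
    intro β c c' h
    have h1 : fill p (ext β) c.1.1 c.1.2 = fill p (ext β) c'.1.1 c'.1.2 := congrArg Fin.val h
    have h2 := hmem c
    have h3 := hmem c'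
    obtain ⟨e1, e2⟩ := fill_inj p (ext β) _ _ _ _ (by omega) (by omega) h1
    exact Subtype.ext (Prod.ext e1 e2)
  have gbij : ∀ β, Function.Bijective (g β) := by
    intro β
    rw [Fintype.bijective_iff_injective_and_card]
    refine ⟨ginj β, ?_⟩
    rw [Fintype.card_coe, Fintype.card_fin]
  let F : (Fin p → Bool) → {T : (shape p ρ).cells ≃ Fin (shape p ρ).card // IsStandard _ T} :=
    fun β => ⟨Equiv.ofBijective (g β) (gbij β), by
      constructor
      · intro a b h1 h2
        show fill p (ext β) a.1.1 a.1.2 < fill p (ext β) b.1.1 b.1.2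
        have h3 := hmem a
        have h4 := hmem b
        have e1 : a.1.2 = 0 := by omega
        have e2 : b.1.2 = 1 := by omega
        rw [e1, e2, h1]
        exact fill_row p _ _ (by omega)
      · intro a b h1 h2
        show fill p (ext β) a.1.1 a.1.2 < fill p (ext β) b.1.1 b.1.2
        have h3 := hmem a
        have h4 := hmem b
        rw [← h1]
        exact fill_col p _ _ _ _ h2 (by omega)⟩
  have hF : Function.Injective F := by
    intro β β' h
    funext k
    have hk := k.2
    have hc : ((2 * (k : ℕ), 1) : ℕ × ℕ) ∈ (shape p ρ).cells := by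
      show ((2 * (k : ℕ), 1) : ℕ × ℕ) ∈ shape p ρ
      rw [mem_twoCol]
      omega
    have h1 : fill p (ext β) (2 * k) 1 = fill p (ext β') (2 * k) 1 := by
      have := congrArg (fun T => (T.1 ⟨_, hc⟩ : Fin _).val) h
      exact this
    unfold fill at h1
    have hlt : 2 * (k : ℕ) < 2 * p := by omega
    rw [if_pos hlt, if_pos hlt] at h1
    have e1 : 2 * (k : ℕ) / 2 = k := by omega
    have e2 : 2 * (k : ℕ) % 2 = 0 := by omega
    rw [e1, e2] at h1
    have e3 : ext β k = β k := by simp [ext]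
    have e4 : ext β' k = β' k := by simp [ext]
    rw [e3, e4] at h1
    cases hb : β k <;> cases hb' : β' k <;> simp [hb, hb'] at h1 ⊢
  unfold numSYT
  calc 2 ^ p = Nat.card (Fin p → Bool) := by simp
    _ ≤ _ := Nat.card_le_card_of_injective F hF

/-! ### The lower bounds -/

lemma law_ge_of_shape (n r : ℕ) (μ : YoungDiagram) (hμ : μ.card = n) :
    (numSYT μ : ℝ) ^ 2 / (n.factorial : ℝ) ≤ rowSumLaw n r (rowSum r μ) := by
  unfold rowSumLaw
  apply single_le_sum (f := fun μ : YoungDiagram => (numSYT μ : ℝ) ^ 2 / (n.factorial : ℝ))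
    (fun _ _ => by positivity)
  rw [mem_filter, mem_diagrams]
  exact ⟨hμ, rfl⟩

lemma law_left_ge (n r : ℕ) (hr : 2 ≤ r) (hn : 2 * r ≤ n) :
    1 / (n.factorial : ℝ) ≤ rowSumLaw n r (2 * r - 1 - 1) := by
  have h1 : (hook (r - 2) (n - r + 1)).card = n := by
    rw [card_hook]; omega
  have h2 : rowSum r (hook (r - 2) (n - r + 1)) = 2 * r - 2 := by
    rw [rowSum_hook _ _ _ (by omega) (by omega)]; omega
  have h3 := law_ge_of_shape n r _ h1
  rw [h2] at h3
  have h4 : (((2 * r - 2 : ℕ) : ℕ) : ℤ) = 2 * (r : ℤ) - 1 - 1 := by omega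
  rw [h4] at h3
  refine le_trans ?_ h3
  apply div_le_div_of_nonneg_right _ (by positivity)
  have h5 : (1 : ℝ) ≤ (numSYT (hook (r - 2) (n - r + 1)) : ℝ) := by
    exact_mod_cast numSYT_pos _
  nlinarith

lemma law_right_ge (n r p : ℕ) (hp : r ≤ 2 * p) (hn : 4 * p ≤ n) :
    (4 : ℝ) ^ p / (n.factorial : ℝ) ≤ rowSumLaw n r (2 * r - 1 + 1) := by
  have h1 : (shape p (n - 4 * p)).card = n := by
    rw [card_twoCol]; omega
  have h2 : rowSum r (shape p (n - 4 * p)) = 2 * r := rowSum_twoCol _ _ _ _ hp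
  have h3 := law_ge_of_shape n r _ h1
  rw [h2] at h3
  have h4 : ((2 * r : ℕ) : ℤ) = 2 * (r : ℤ) - 1 + 1 := by push_cast; ring
  rw [h4] at h3
  refine le_trans ?_ h3
  apply div_le_div_of_nonneg_right _ (by positivity)
  have h5 : (2 : ℝ) ^ p ≤ (numSYT (shape p (n - 4 * p)) : ℝ) := by
    exact_mod_cast two_pow_le_numSYT p (n - 4 * p)
  calc (4 : ℝ) ^ p = ((2 : ℝ) ^ p) ^ 2 := by
        rw [← pow_mul, mul_comm, pow_mul]; norm_num
    _ ≤ _ := by gcongr

/-- **Sums of the first rows are not log-concave.** For every `r ≥ 2` and all sufficiently large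
`n`, the distribution of `λ_1 + … + λ_r` under the Plancherel measure on the partitions of `n` is
not log-concave. -/
theorem result : ∀ r : ℕ, 2 ≤ r → ∃ N : ℕ, ∀ n : ℕ, N ≤ n → ¬ LogConcave (rowSumLaw n r) := by
  intro r hr
  -- a polynomial is eventually smaller than `4 ^ p`
  obtain ⟨P, hP⟩ : ∃ P : ℕ, ∀ p : ℕ, P ≤ p →
      ((2 * r : ℝ) ^ r * ((7 * p : ℝ) ^ (2 * r - 1)) ^ 2) ^ 2 < 4 ^ p := by
    have hlim := tendsto_pow_const_div_const_pow_of_one_lt (4 * (2 * r - 1))
      (by norm_num : (1 : ℝ) < 4)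
    set K : ℝ := (2 * r : ℝ) ^ (2 * r) * 7 ^ (4 * (2 * r - 1)) with hK
    have hKpos : 0 < K := by positivity
    have h1 := hlim.eventually (gt_mem_nhds (show (0 : ℝ) < 1 / K by positivity))
    rw [Filter.eventually_atTop] at h1
    obtain ⟨P, hP⟩ := h1
    refine ⟨P, fun p hp => ?_⟩
    have h2 := hP p hp
    rw [div_lt_div_iff₀ (by positivity) hKpos, one_mul] at h2
    calc ((2 * r : ℝ) ^ r * ((7 * p : ℝ) ^ (2 * r - 1)) ^ 2) ^ 2
        = (p : ℝ) ^ (4 * (2 * r - 1)) * K := by
          have e : ∀ (a b c : ℝ) (s D : ℕ), (a ^ s * ((b * c) ^ D) ^ 2) ^ 2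
              = c ^ (4 * D) * (a ^ (2 * s) * b ^ (4 * D)) := by
            intro a b c s D
            ring
          rw [hK, e]
      _ < 4 ^ p := h2
  refine ⟨4 * max P (max r 1), fun n hn hlc => ?_⟩
  set p := n / 4 with hp
  have hpm : max P (max r 1) ≤ p := by omega
  have hpP : P ≤ p := le_trans (le_max_left _ _) hpm
  have hpr : r ≤ p := le_trans ((le_max_left _ _).trans (le_max_right _ _)) hpm
  have hp1 : 1 ≤ p := le_trans ((le_max_right _ _).trans (le_max_right _ _)) hpm
  have hn4 : 4 * p ≤ n := by omega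
  have hn7 : n ≤ 7 * p := by omega
  have h1 := law_left_ge n r hr (by omega)
  have h2 := law_right_ge n r p (by omega) hn4
  have h3 := law_middle_le n r (by omega)
  have h4 := hlc (2 * r - 1)
  have hfac : (0 : ℝ) < (n.factorial : ℝ) := by positivity
  have h5 : (1 / (n.factorial : ℝ)) * ((4 : ℝ) ^ p / (n.factorial : ℝ))
      ≤ rowSumLaw n r (2 * r - 1 - 1) * rowSumLaw n r (2 * r - 1 + 1) := by
    apply mul_le_mul h1 h2 (by positivity)
    exact le_trans (by positivity) h1
  have h0 : 0 ≤ rowSumLaw n r (2 * r - 1) := by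
    unfold rowSumLaw
    exact sum_nonneg fun _ _ => by positivity
  have h6 : rowSumLaw n r (2 * r - 1) ^ 2
      ≤ (((2 * r : ℝ) ^ r * ((n : ℝ) ^ (2 * r - 1)) ^ 2) / (n.factorial : ℝ)) ^ 2 := by
    gcongr
  have h7 : (((2 * r : ℝ) ^ r * ((n : ℝ) ^ (2 * r - 1)) ^ 2) / (n.factorial : ℝ)) ^ 2
      < (1 / (n.factorial : ℝ)) * ((4 : ℝ) ^ p / (n.factorial : ℝ)) := by
    rw [div_pow, one_div, ← div_eq_inv_mul, div_div, ← pow_two]
    apply div_lt_div_of_pos_right _ (by positivity)
    refine lt_of_le_of_lt ?_ (hP p hpP)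
    have : (n : ℝ) ≤ 7 * p := by exact_mod_cast hn7
    gcongr
  linarith

end Pool.Agent.Results.MP_64a7c6_pr.RowSumsNotLogConcave
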